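import Pool.Agent.H70.PT.Targets2

/-!
# Row UPF: the upper bound for the length, all but one entry fixed (helper72)

The computation of `Pool.Agent.H63.PT.UPP`, with the sum over the first number alone.
-/

set_option autoImplicit false

open Finset Pool.Agent.H70.PT

namespace Pool.Agent.H72.PT

private theorem rsum {ι : Type} (S : Finset ι) (f : ι → ℝ) (hf : ∀ i, 0 ≤ f i) {s : ℝ}
    (hs : 0 < s) (hs1 : s ≤ 1) : (∑ i ∈ S, f i) ^ s ≤ ∑ i ∈ S, f i ^ s := by
  classical
  induction S using Finset.induction_on with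
  | empty => rw [sum_empty, sum_empty, Real.zero_rpow hs.ne']
  | insert a S ha ih =>
    rw [sum_insert ha, sum_insert ha]
    have h1 := Real.rpow_add_le_add_rpow (hf a) (sum_nonneg fun i (_ : i ∈ S) => hf i) hs.le hs1
    linarith

private theorem markov1 (M : ℕ) (p : ℕ → Prop) (F : ℕ → ℝ) (c : ℝ)
    (hF : ∀ x ∈ range M, 0 ≤ F x) (hp : ∀ x, x < M → p x → c ≤ F x) :
    (({x : ℕ | x < M ∧ p x}.ncard : ℕ) : ℝ) * c ≤ ∑ x ∈ range M, F x := by
  classical
  have h1 : {x : ℕ | x < M ∧ p x} = (((range M).filter p : Finset ℕ) : Set ℕ) := by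
    ext x
    simp
  rw [h1, Set.ncard_coe_finset]
  calc (((range M).filter p).card : ℝ) * c = ∑ _x ∈ (range M).filter p, c := by
        rw [sum_const, nsmul_eq_mul]
    _ ≤ ∑ x ∈ (range M).filter p, F x := sum_le_sum fun x hx =>
        hp x (mem_range.1 (mem_filter.1 hx).1) (mem_filter.1 hx).2
    _ ≤ _ := sum_le_sum_of_subset_of_nonneg (filter_subset _ _) fun x hx _ => hF x hx

theorem pf_UPF (MOF : T_MOF) (SIZ : T_SIZ) (IDN : T_IDN) : T_UPF := by
  intro r n m b ε X Y z hz hnm hb hb' hε hrb hXY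
  obtain ⟨hid, hs0, hs1, hw, hs34⟩ := IDN b hb hb'
  obtain ⟨s, hs⟩ : ∃ s, s = sx b := ⟨_, rfl⟩
  rw [← hs] at hid hs0 hs1 hw ⊢
  have hr : 1 ≤ r := by
    have := z.2
    omega
  have hrpos : (0 : ℝ) < r := by exact_mod_cast hr
  have h4 : (0 : ℝ) < 2 ^ m := by positivity
  rcases eq_or_lt_of_le hs0 with h0 | hspos
  · -- the trivial case
    have h1 := markov1 (2 ^ m) (fun x => (r : ℝ) * 2 ^ m * 2 ^ ((mu b + ε) * n) <
      LL (ru n (Function.update X z x) Y)) (fun _ => 1) 1 (fun _ _ => zero_le_one)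
      (fun _ _ _ => le_rfl)
    have h2 : ∑ _x ∈ range (2 ^ m), (1 : ℝ) = 2 ^ m := by simp
    rw [h2, mul_one] at h1
    rw [← h0, mul_zero, zero_mul, neg_zero, Real.rpow_zero]
    linarith
  · obtain ⟨T, hT⟩ : ∃ T : ℝ, T = (r : ℝ) * 2 ^ m * 2 ^ ((mu b + ε) * n) := ⟨_, rfl⟩
    have hTpos : 0 < T := by rw [hT]; positivity
    obtain ⟨w, hwd⟩ : ∃ w : ℝ, w = (3 : ℝ) ^ s := ⟨_, rfl⟩
    have hw0 : 0 ≤ w := by rw [hwd]; positivity
    obtain ⟨A, hA⟩ : ∃ A : ℝ, A = 2 ^ (m + 1) / 2 ^ n := ⟨_, rfl⟩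
    have hApos : 0 < A := by rw [hA]; positivity
    have h2s : (2 : ℝ) ^ s ≤ 2 := by
      calc (2 : ℝ) ^ s ≤ (2 : ℝ) ^ (1 : ℝ) :=
            Real.rpow_le_rpow_of_exponent_le (by norm_num) hs1
        _ = 2 := Real.rpow_one 2
    have hpow : ∀ P : ℕ, ((3 : ℝ) ^ P) ^ s = w ^ P := by
      intro P
      rw [hwd, ← Real.rpow_natCast, ← Real.rpow_natCast, ← Real.rpow_mul (by norm_num),
        ← Real.rpow_mul (by norm_num), mul_comm]
    -- the length
    have hlen : ∀ x : ℕ, x < 2 ^ m →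
        (LL (ru n (Function.update X z x) Y) : ℝ) ^ s ≤
        A ^ s * ∑ i, (w ^ PP n (false, Function.update X z x, Y) i +
          2 * w ^ QQ n (false, Function.update X z x, Y) i) := by
      intro x hx
      obtain ⟨q, hq⟩ : ∃ q : Cf r, q = (false, Function.update X z x, Y) :=
        ⟨_, rfl⟩
      have hqX : ∀ i, (q.2.1 i : ℝ) ≤ 2 ^ m := by
        intro i
        rw [hq]
        have h1 : Function.update X z x i ≤ 2 ^ m := by
          by_cases hi : i = z
          · rw [hi, Function.update_self]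
            exact hx.le
          · rw [Function.update_of_ne hi]
            exact (hXY i).1.le
        exact_mod_cast h1
      have hqY : ∀ i, (q.2.2 i : ℝ) ≤ 2 ^ m := by
        intro i
        rw [hq]
        have h1 := (hXY i).2.le
        exact_mod_cast h1
      have h2n : (0 : ℝ) < 2 ^ n := by positivity
      have h2nm : (2 : ℝ) ^ n ≤ 2 ^ m := pow_le_pow_right₀ (by norm_num) hnm
      have hX : ∀ i, ((nx^[n] q).2.1 i : ℝ) ≤ A * 3 ^ PP n q i := by
        intro i
        have h1 := (SIZ r n q i).1.2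
        have h2 : (3 : ℝ) ^ PP n q i * (q.2.1 i + 2 ^ n) ≤ 3 ^ PP n q i * 2 ^ (m + 1) := by
          refine mul_le_mul_of_nonneg_left ?_ (by positivity)
          rw [pow_succ]
          linarith [hqX i]
        rw [hA, div_mul_eq_mul_div, le_div_iff₀ h2n]
        linarith
      have hY : ∀ i, ((nx^[n] q).2.2 i : ℝ) ≤ A * 3 ^ QQ n q i := by
        intro i
        have h1 := (SIZ r n q i).2.2
        have h2 : (3 : ℝ) ^ QQ n q i * (q.2.2 i + 2 ^ n) ≤ 3 ^ QQ n q i * 2 ^ (m + 1) := by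
          refine mul_le_mul_of_nonneg_left ?_ (by positivity)
          rw [pow_succ]
          linarith [hqY i]
        rw [hA, div_mul_eq_mul_div, le_div_iff₀ h2n]
        linarith
      have hLL : (LL (nx^[n] q) : ℝ) ≤ A * ∑ i, ((3 : ℝ) ^ PP n q i + 2 * 3 ^ QQ n q i) := by
        unfold LL
        push_cast
        rw [mul_sum]
        refine sum_le_sum fun i _ => ?_
        have h1 := hX i
        have h2 := hY i
        rw [mul_add]
        linarith
      have hru : ru n (Function.update X z x) Y = nx^[n] q := by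
        rw [hq]
        rfl
      rw [hru, ← hq]
      calc (LL (nx^[n] q) : ℝ) ^ s
          ≤ (A * ∑ i, ((3 : ℝ) ^ PP n q i + 2 * 3 ^ QQ n q i)) ^ s :=
            Real.rpow_le_rpow (Nat.cast_nonneg _) hLL hs0
        _ = A ^ s * (∑ i, ((3 : ℝ) ^ PP n q i + 2 * 3 ^ QQ n q i)) ^ s :=
            Real.mul_rpow hApos.le (sum_nonneg fun i _ => by positivity)
        _ ≤ A ^ s * ∑ i, ((3 : ℝ) ^ PP n q i + 2 * 3 ^ QQ n q i) ^ s :=
            mul_le_mul_of_nonneg_left (rsum _ _ (fun i => by positivity) hspos hs1)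
              (by positivity)
        _ ≤ A ^ s * ∑ i, (w ^ PP n q i + 2 * w ^ QQ n q i) := by
            refine mul_le_mul_of_nonneg_left (sum_le_sum fun i _ => ?_) (by positivity)
            calc ((3 : ℝ) ^ PP n q i + 2 * 3 ^ QQ n q i) ^ s
                ≤ ((3 : ℝ) ^ PP n q i) ^ s + (2 * (3 : ℝ) ^ QQ n q i) ^ s :=
                  Real.rpow_add_le_add_rpow (by positivity) (by positivity) hs0 hs1
              _ = w ^ PP n q i + 2 ^ s * w ^ QQ n q i := by
                  rw [Real.mul_rpow (by norm_num) (by positivity), hpow, hpow]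
              _ ≤ w ^ PP n q i + 2 * w ^ QQ n q i := by
                  have := mul_le_mul_of_nonneg_right h2s (pow_nonneg hw0 (QQ n q i))
                  linarith
    -- Markov
    have hM := markov1 (2 ^ m) (fun x => (r : ℝ) * 2 ^ m * 2 ^ ((mu b + ε) * n) <
      LL (ru n (Function.update X z x) Y))
      (fun x => (LL (ru n (Function.update X z x) Y) : ℝ) ^ s) (T ^ s)
      (fun x _ => by positivity) (fun x _ hx => by
        rw [← hT] at hx
        exact Real.rpow_le_rpow hTpos.le hx.le hs0)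
    have hSS : ∑ x ∈ range (2 ^ m), (LL (ru n (Function.update X z x) Y) : ℝ) ^ s ≤
        A ^ s * (3 * r * (2 ^ m * ((1 + w) / 2) ^ n)) := by
      calc ∑ x ∈ range (2 ^ m), (LL (ru n (Function.update X z x) Y) : ℝ) ^ s
          ≤ ∑ x ∈ range (2 ^ m), A ^ s * ∑ i, (w ^ PP n (false, Function.update X z x, Y) i +
            2 * w ^ QQ n (false, Function.update X z x, Y) i) :=
            sum_le_sum fun x hx => hlen x (mem_range.1 hx)
        _ = A ^ s * ∑ i, (∑ x ∈ range (2 ^ m), w ^ PP n (false, Function.update X z x, Y) i +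
            2 * ∑ x ∈ range (2 ^ m), w ^ QQ n (false, Function.update X z x, Y) i) := by
            rw [← mul_sum, sum_comm]
            congr 1
            refine sum_congr rfl fun i _ => ?_
            rw [sum_add_distrib, mul_sum]
        _ = A ^ s * (3 * r * (2 ^ m * ((1 + w) / 2) ^ n)) := by
            rw [sum_congr rfl fun i _ => by
              rw [(MOF r n m X Y z i w hz hnm).1, (MOF r n m X Y z i w hz hnm).2],
              sum_const, card_univ, Fintype.card_fin, nsmul_eq_mul]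
            ring
    -- the exponents
    have h1b : 0 < 1 - b := by linarith
    obtain ⟨L, hL⟩ : ∃ L, L = Real.logb 2 (1 - b) := ⟨_, rfl⟩
    rw [← hL] at hid
    have hLp : (2 : ℝ) ^ L = 1 - b := by
      rw [hL]
      exact Real.rpow_logb (by norm_num) (by norm_num) h1b
    have hwn : ((1 + w) / 2) ^ n = (2 : ℝ) ^ ((-1 - L) * n) := by
      have h1 : (1 + w) / 2 = (2 : ℝ) ^ (-1 - L) := by
        rw [sub_eq_add_neg, Real.rpow_add (by norm_num), Real.rpow_neg (by norm_num),
          Real.rpow_neg (by norm_num), hLp, Real.rpow_one, hwd, hw]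
        field_simp
        ring
      rw [h1, ← Real.rpow_natCast, ← Real.rpow_mul (by norm_num)]
    have hAr : A ^ s = (2 : ℝ) ^ (((m : ℝ) + 1 - n) * s) := by
      have h1 : A = (2 : ℝ) ^ ((m : ℝ) + 1 - n) := by
        rw [hA, Real.rpow_sub (by norm_num), Real.rpow_natCast]
        congr 1
        rw [show (m : ℝ) + 1 = ((m + 1 : ℕ) : ℝ) by push_cast; ring, Real.rpow_natCast]
      rw [h1, ← Real.rpow_mul (by norm_num)]
    have hTs : T ^ s = (r : ℝ) ^ s * (2 : ℝ) ^ (m * s + (mu b + ε) * n * s) := by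
      rw [hT, Real.mul_rpow (by positivity) (by positivity),
        Real.mul_rpow (by positivity) (by positivity), ← Real.rpow_mul (by norm_num),
        ← Real.rpow_natCast 2 m, ← Real.rpow_mul (by norm_num), Real.rpow_add (by norm_num)]
      ring
    have hr1 : (r : ℝ) ^ (1 - s) ≤ (2 : ℝ) ^ ((1 - s) * ka b * n) := by
      rcases hrb with h | h
      · have h1 : s = 1 := by rw [hs, h, hs34]
        rw [h1]
        simp
      · calc (r : ℝ) ^ (1 - s) ≤ ((2 : ℝ) ^ (ka b * n)) ^ (1 - s) :=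
              Real.rpow_le_rpow hrpos.le h (by linarith)
          _ = (2 : ℝ) ^ ((1 - s) * ka b * n) := by
              rw [← Real.rpow_mul (by norm_num)]
              congr 1
              ring
    have hr2 : (r : ℝ) ≤ (r : ℝ) ^ s * (2 : ℝ) ^ ((1 - s) * ka b * n) := by
      calc (r : ℝ) = (r : ℝ) ^ s * (r : ℝ) ^ (1 - s) := by
            rw [← Real.rpow_add hrpos]
            norm_num
        _ ≤ _ := mul_le_mul_of_nonneg_left hr1 (by positivity)
    have hkey : A ^ s * (3 * r * ((1 + w) / 2) ^ n) ≤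
        12 * 2 ^ (-(ε * s * n)) * T ^ s := by
      rw [hwn, hAr, hTs]
      have e1 : (2 : ℝ) ^ (((m : ℝ) + 1 - n) * s) * ((2 : ℝ) ^ ((1 - s) * ka b * n) *
          (2 : ℝ) ^ ((-1 - L) * n)) =
          (2 : ℝ) ^ s * (2 : ℝ) ^ ((m : ℝ) * s + mu b * n * s) := by
        rw [← Real.rpow_add (by norm_num), ← Real.rpow_add (by norm_num),
          ← Real.rpow_add (by norm_num)]
        congr 1
        have h1 : ((1 - s) * ka b - s * (1 + mu b) - 1 - L) * n = 0 := by rw [hid, zero_mul]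
        linarith
      have e2 : (2 : ℝ) ^ (-(ε * s * n)) * (2 : ℝ) ^ ((m : ℝ) * s + (mu b + ε) * n * s) =
          (2 : ℝ) ^ ((m : ℝ) * s + mu b * n * s) := by
        rw [← Real.rpow_add (by norm_num)]
        congr 1
        ring
      calc (2 : ℝ) ^ (((m : ℝ) + 1 - n) * s) * (3 * r * (2 : ℝ) ^ ((-1 - L) * n))
          = 3 * ((2 : ℝ) ^ (((m : ℝ) + 1 - n) * s) * (2 : ℝ) ^ ((-1 - L) * n)) * r := by ring
        _ ≤ 3 * ((2 : ℝ) ^ (((m : ℝ) + 1 - n) * s) * (2 : ℝ) ^ ((-1 - L) * n)) *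
            ((r : ℝ) ^ s * (2 : ℝ) ^ ((1 - s) * ka b * n)) :=
            mul_le_mul_of_nonneg_left hr2 (by positivity)
        _ = 3 * (r : ℝ) ^ s * ((2 : ℝ) ^ (((m : ℝ) + 1 - n) * s) *
            ((2 : ℝ) ^ ((1 - s) * ka b * n) * (2 : ℝ) ^ ((-1 - L) * n))) := by ring
        _ = 3 * (r : ℝ) ^ s * ((2 : ℝ) ^ s * (2 : ℝ) ^ ((m : ℝ) * s + mu b * n * s)) := by
            rw [e1]
        _ ≤ 3 * (r : ℝ) ^ s * (4 * (2 : ℝ) ^ ((m : ℝ) * s + mu b * n * s)) := by
            refine mul_le_mul_of_nonneg_left ?_ (by positivity)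
            exact mul_le_mul_of_nonneg_right (by linarith) (by positivity)
        _ = 12 * (r : ℝ) ^ s * ((2 : ℝ) ^ (-(ε * s * n)) *
            (2 : ℝ) ^ ((m : ℝ) * s + (mu b + ε) * n * s)) := by
            rw [e2]
            ring
        _ = _ := by ring
    have hTs0 : 0 < T ^ s := Real.rpow_pos_of_pos hTpos s
    refine le_of_mul_le_mul_right ?_ hTs0
    calc _ ≤ _ := hM
      _ ≤ A ^ s * (3 * r * (2 ^ m * ((1 + w) / 2) ^ n)) := hSS
      _ = A ^ s * (3 * r * ((1 + w) / 2) ^ n) * 2 ^ m := by ring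
      _ ≤ 12 * 2 ^ (-(ε * s * n)) * T ^ s * 2 ^ m :=
          mul_le_mul_of_nonneg_right hkey h4.le
      _ = _ := by ring

end Pool.Agent.H72.PT
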