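import Pool.Agent.H70.PT.Targets

/-!
Row CHO of bwp_modules: the choice of the constants.
-/

set_option autoImplicit false

namespace Pool.Agent.H72.PT

open Pool.Agent.H70.PT

theorem sx_mono {b c : ℝ} (h1 : 1 / 2 ≤ b) (h2 : b ≤ c) (h3 : c ≤ 3 / 4) : sx b ≤ sx c := by
  unfold sx
  have hb : 0 < 1 - b := by linarith
  have hc : 0 < 1 - c := by linarith
  refine Real.logb_le_logb_of_le (by norm_num) (div_pos (by linarith) hb) ?_
  rw [div_le_div_iff₀ hb hc]
  nlinarith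

theorem sx_pos {b : ℝ} (h1 : 1 / 2 < b) (h3 : b ≤ 3 / 4) : 0 < sx b := by
  unfold sx
  have hb : 0 < 1 - b := by linarith
  refine Real.logb_pos (by norm_num) ?_
  rw [lt_div_iff₀ hb]
  linarith

theorem pf_CHO (ENT : T_ENT) : T_CHO := by
  obtain ⟨hka, -, -, -, hkac, hmuc, hkam, -⟩ := ENT
  intro ε hε
  -- uniform continuity of `mu`
  have huc := isCompact_Icc.uniformContinuousOn_of_continuous
    (hmuc.continuousOn (s := Set.Icc (1 / 2 : ℝ) (3 / 4)))
  rw [Metric.uniformContinuousOn_iff] at huc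
  obtain ⟨η₁, hη₁, h1⟩ := huc ε hε
  -- continuity of `ka`
  have hc := Metric.continuous_iff.1 hkac (1 / 2) ε hε
  obtain ⟨η₂, hη₂, h2⟩ := hc
  set η : ℝ := min (min (η₁ / 2) (η₂ / 4)) (1 / 16) with hη
  have hη0 : 0 < η := lt_min (lt_min (by positivity) (by positivity)) (by norm_num)
  have hηa : η ≤ η₁ / 2 := (min_le_left _ _).trans (min_le_left _ _)
  have hηb : η ≤ η₂ / 4 := (min_le_left _ _).trans (min_le_right _ _)
  have hηc : η ≤ 1 / 16 := min_le_right _ _
  have hne : (Set.Icc (1 / 2 + η) (3 / 4 : ℝ)).Nonempty :=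
    Set.nonempty_Icc.2 (by linarith)
  have hcont : ContinuousOn (fun b => ka b - ka (b - η)) (Set.Icc (1 / 2 + η) (3 / 4 : ℝ)) :=
    (hkac.sub (hkac.comp (continuous_id.sub continuous_const))).continuousOn
  obtain ⟨b₀, hb₀, hmin⟩ := isCompact_Icc.exists_isMinOn hne hcont
  have hd1 : 0 < ka b₀ - ka (b₀ - η) := by
    have h3 : ka (b₀ - η) < ka b₀ := by
      refine hkam ⟨by linarith [hb₀.1], by linarith [hb₀.2]⟩ ⟨by linarith [hb₀.1], hb₀.2⟩ ?_
      linarith
    linarith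
  have hd2 : 0 < sx (1 / 2 + η) := sx_pos (by linarith) (by linarith)
  refine ⟨η, hη0, min (ka b₀ - ka (b₀ - η)) (sx (1 / 2 + η)), lt_min hd1 hd2, hηc, ?_, ?_, ?_, ?_⟩
  · intro x y hx1 hx2 hy1 hy2 hxy
    have := h1 x ⟨hx1, hx2⟩ y ⟨hy1, hy2⟩ (by
      rw [Real.dist_eq]
      linarith)
    rw [Real.dist_eq] at this
    exact this.le
  · have := h2 (1 / 2 + 2 * η) (by
      rw [Real.dist_eq, show (1 / 2 + 2 * η - 1 / 2 : ℝ) = 2 * η by ring,
        abs_of_pos (by linarith)]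
      linarith)
    rw [hka, Real.dist_eq, sub_zero] at this
    exact (le_abs_self _).trans this.le
  · intro b hb1 hb2
    have h3 := hmin (show b ∈ Set.Icc (1 / 2 + η) (3 / 4 : ℝ) from ⟨hb1, hb2⟩)
    simp only [Set.mem_setOf_eq] at h3
    have h4 := min_le_left (ka b₀ - ka (b₀ - η)) (sx (1 / 2 + η))
    linarith
  · intro b hb1 hb2
    exact (min_le_right _ _).trans (sx_mono (by linarith) hb1 hb2)

end Pool.Agent.H72.PT
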